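import Mathlib
import Pool.Agent.H55.BlockDefs
import Pool.Agent.H55.Block

namespace Pool.Agent.Results.MP_5e6778_nt.SuperDoublyExp

open Pool.Agent.H55.BlockDefs

/-- For every `C`, `f(r) ≥ C ^ (2 ^ r)` for all large `r`. -/
theorem result : ∀ C : ℕ, ∃ r₀ : ℕ, ∀ r, r₀ ≤ r →
    ∃ S, IsBlockRep r S ∧ ∃ x ∈ S, C ^ 2 ^ r ≤ x :=
  Pool.Agent.H55.Block.superfast

end Pool.Agent.Results.MP_5e6778_nt.SuperDoublyExp
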