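import Mathlib
import Pool.Agent.H55.BlockDefs
import Pool.Agent.H55.Block

namespace Pool.Agent.Results.MP_5e6778_nt.SylvesterNotOptimal

open Pool.Agent.H55.BlockDefs

/-- For every `r ≥ 2`, `f(r) > s_{r+1} - 1`. -/
theorem result : ∀ r : ℕ, 2 ≤ r → ∃ S, IsBlockRep r S ∧ ∃ x ∈ S, s (r + 1) - 1 < x :=
  Pool.Agent.H55.Block.beats

end Pool.Agent.Results.MP_5e6778_nt.SylvesterNotOptimal
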